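import Mathlib

namespace Pool.Agent.Results.MP_bc764a_al.Semisparse
open Set Pointwise

variable {G : Type*} [Group G] {n : ℕ}

/-- The subgroup generated by the generators with index in `S`. -/
def gen (ρ : Fin n → G) (S : Set (Fin n)) : Subgroup G := Subgroup.closure (ρ '' S)

/-- The conjugate `φ⁻¹ S φ`. -/
def cj (S : Subgroup G) (φ : G) : Subgroup G := S.comap (MulAut.conj φ).toMonoidHom

/-- `G` with the generators `ρ` is a string C-group. -/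
structure StringC (ρ : Fin n → G) : Prop where
  top : gen ρ univ = ⊤
  invol : ∀ i, ρ i ≠ 1 ∧ ρ i * ρ i = 1
  comm : ∀ i j : Fin n, i.1 + 2 ≤ j.1 → (ρ i * ρ j) ^ 2 = 1
  inter : ∀ I J, gen ρ I ⊓ gen ρ J = gen ρ (I ∩ J)

/-- `S` is semisparse in the group generated by the sequence `ρ`. -/
structure IsSemisparse (ρ : Fin n → G) (S : Subgroup G) : Prop where
  one : ∀ φ ∈ gen ρ univ, ∀ i, (cj S φ : Set G) ∩ ((gen ρ {i}ᶜ : Set G) * {ρ i}) = ∅
  two : ∀ φ ∈ gen ρ univ, ∀ i k j, i < k → k < j →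
    (gen ρ (Ioi i) : Set G) ∩ ((gen ρ (Iio j) : Set G) * (cj S φ : Set G)) ⊆
      (gen ρ {k}ᶜ : Set G) * (gen ρ (Ioi i) ⊓ gen ρ (Iio j) : Subgroup G) * (cj S φ : Set G)
  three : ∀ i j : Fin n, j.1 = i.1 + 1 →
    (gen ρ (Ioi i) : Set G) ∩ ((gen ρ (Iio j) : Set G) * (S : Set G)) ⊆ S

lemma mem_cj {S : Subgroup G} {φ x : G} : x ∈ cj S φ ↔ φ * x * φ⁻¹ ∈ S := Iff.rfl

lemma gmono {ρ : Fin n → G} {I J : Set (Fin n)} (h : I ⊆ J) : gen ρ I ≤ gen ρ J :=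
  Subgroup.closure_mono (image_mono h)

lemma split {ρ : Fin n → G} (hc : ∀ i j : Fin n, i.1 + 2 ≤ j.1 → Commute (ρ i) (ρ j)) (k : Fin n)
    {g : G} (hg : g ∈ gen ρ {k}ᶜ) :
    ∃ a ∈ gen ρ (Iio k), ∃ b ∈ gen ρ (Ioi k), g = a * b ∧ Commute a b := by
  have h1 : ∀ a ∈ gen ρ (Iio k), ∀ b ∈ gen ρ (Ioi k), Commute a b := by
    intro a ha b hb
    induction ha using Subgroup.closure_induction with
    | one => exact Commute.one_left _
    | mul _ _ _ _ h h' => exact h.mul_left h'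
    | inv _ _ h => exact h.inv_left
    | mem x hx =>
      induction hb using Subgroup.closure_induction with
      | one => exact Commute.one_right _
      | mul _ _ _ _ h h' => exact h.mul_right h'
      | inv _ _ h => exact h.inv_right
      | mem y hy =>
        obtain ⟨i, hi, rfl⟩ := hx
        obtain ⟨j, hj, rfl⟩ := hy
        exact hc i j (by have : i < k := hi; have : k < j := hj; omega)
  suffices ∃ a ∈ gen ρ (Iio k), ∃ b ∈ gen ρ (Ioi k), g = a * b by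
    obtain ⟨a, ha, b, hb, e⟩ := this
    exact ⟨a, ha, b, hb, e, h1 a ha b hb⟩
  induction hg using Subgroup.closure_induction with
  | mem x hx =>
    obtain ⟨i, hi, rfl⟩ := hx
    rcases lt_or_gt_of_ne hi with h | h
    · exact ⟨_, Subgroup.subset_closure ⟨i, h, rfl⟩, 1, one_mem _, by simp⟩
    · exact ⟨1, one_mem _, _, Subgroup.subset_closure ⟨i, h, rfl⟩, by simp⟩
  | one => exact ⟨1, one_mem _, 1, one_mem _, by simp⟩
  | mul x y _ _ hx hy =>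
    obtain ⟨a, ha, b, hb, rfl⟩ := hx
    obtain ⟨c, hc, d, hd, rfl⟩ := hy
    exact ⟨_, mul_mem ha hc, _, mul_mem hb hd, (h1 c hc b hb).symm.mul_mul_mul_comm _ _⟩
  | inv x _ hx =>
    obtain ⟨a, ha, b, hb, rfl⟩ := hx
    exact ⟨_, inv_mem ha, _, inv_mem hb, (h1 a ha b hb).mul_inv⟩

lemma pip {ρ : Fin n → G} (hc : ∀ i j : Fin n, i.1 + 2 ≤ j.1 → Commute (ρ i) (ρ j))
    {S : Subgroup G} (h : ∀ φ, IsSemisparse ρ (cj S φ ⊓ gen ρ univ)) (m : ℕ) :
    ∀ i j : Fin n, j.1 = i.1 + 1 + m → ∀ φ, ∀ a ∈ gen ρ (Ioi i), ∀ b ∈ gen ρ (Iio j),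
      b⁻¹ * a ∈ cj S φ → ∃ c ∈ gen ρ (Ioi i) ⊓ gen ρ (Iio j), c⁻¹ * a ∈ cj S φ := by
  have hu : ∀ {I x}, x ∈ gen ρ I → x ∈ gen ρ univ := fun h => gmono (subset_univ _) h
  have h3 : ∀ i j : Fin n, j.1 = i.1 + 1 → ∀ φ, ∀ a ∈ gen ρ (Ioi i), ∀ b ∈ gen ρ (Iio j),
      b⁻¹ * a ∈ cj S φ → a ∈ cj S φ := fun i j hj φ a ha b hb e =>
    ((h φ).three i j hj ⟨ha, b, hb, _,
      Subgroup.mem_inf.2 ⟨e, mul_mem (inv_mem (hu hb)) (hu ha)⟩, by simp⟩).1
  induction m with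
  | zero => exact fun i j hj φ a ha b hb e => ⟨1, one_mem _, by simpa using h3 i j hj φ a ha b hb e⟩
  | succ m ih =>
    intro i j hj φ a ha b hb e
    let k : Fin n := ⟨i.1 + 1, by omega⟩
    have hik : i < k := Nat.lt_succ_self _
    obtain ⟨_, ⟨g, hg, c, hc', rfl⟩, s, hs, e2⟩ := (h φ).two 1 (one_mem _) i k j hik
      (show i.1 + 1 < j.1 by omega) ⟨ha, b, hb, b⁻¹ * a, by
        simpa [mem_cj] using ⟨e, mul_mem (inv_mem (hu hb)) (hu ha)⟩, by simp⟩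
    have hs' : s ∈ cj S φ := by simpa [mem_cj] using (show _ ∈ cj S φ ⊓ gen ρ univ from hs).1
    obtain ⟨g1, h1, g2, h2, rfl, -⟩ := split hc k hg
    simp only at e2
    have h2' : g2 ∈ gen ρ (Ioi i) := gmono (Ioi_subset_Ioi hik.le) h2
    have k1 := h3 i k rfl (φ * (g2 * c)⁻¹) _ (mul_mem ha (inv_mem (mul_mem h2' hc'.1))) g1 h1 (by
      rw [mem_cj] at hs' ⊢; convert hs' using 1; rw [← e2]; group)
    obtain ⟨t, ht, k2⟩ := ih k j (by simp only [k]; omega) (φ * c⁻¹) g2 h2 _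
      (mul_mem hb (inv_mem hc'.2)) (by
        have := mul_mem e (inv_mem (show (g2 * c)⁻¹ * a ∈ cj S φ by
          rw [mem_cj] at k1 ⊢; convert k1 using 1; group))
        rw [mem_cj] at this ⊢; convert this using 1; group)
    refine ⟨t * c, mul_mem ⟨gmono (Ioi_subset_Ioi hik.le) ht.1, ht.2⟩ hc', ?_⟩
    rw [mem_cj] at k1 k2 ⊢
    convert mul_mem k2 k1 using 1; group

lemma gcomp {m : ℕ} (ρ : Fin n → G) (f : Fin m → Fin n) (I : Set (Fin m)) :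
    gen (ρ ∘ f) I = gen ρ (f '' I) := by rw [gen, gen, image_comp]

theorem result {G : Type*} [Group G] (n : ℕ) (ρ : Fin (n + 2) → G) (hρ : StringC ρ)
    (S : Subgroup G)
    (h0 : ∀ φ, IsSemisparse (ρ ∘ Fin.succ) (cj S φ ⊓ gen ρ {0}ᶜ))
    (h1 : ∀ φ, IsSemisparse (ρ ∘ Fin.castSucc) (cj S φ ⊓ gen ρ {Fin.last _}ᶜ))
    (hs : ∀ φ, (cj S φ : Set G) ∩ ((gen ρ {0}ᶜ : Set G) * (gen ρ {Fin.last _}ᶜ : Set G)) =
      (cj S φ ⊓ gen ρ {0}ᶜ : Subgroup G) * (cj S φ ⊓ gen ρ {Fin.last _}ᶜ : Subgroup G)) :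
    IsSemisparse ρ S := by
  have hc : ∀ i j : Fin (n + 2), i.1 + 2 ≤ j.1 → Commute (ρ i) (ρ j) := fun i j h => by
    have a := (hρ.invol i).2
    have b := (hρ.invol j).2
    have c := hρ.comm i j h
    rw [sq, mul_eq_one_iff_eq_inv, mul_inv_rev, ← eq_inv_of_mul_eq_one_left a,
      ← eq_inv_of_mul_eq_one_left b] at c
    exact c
  have u0 : gen (ρ ∘ Fin.succ) univ = gen ρ {0}ᶜ := by rw [gcomp, image_univ, Fin.range_succ]
  have u1 : gen (ρ ∘ Fin.castSucc) univ = gen ρ {Fin.last _}ᶜ := by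
    rw [gcomp]; congr 1; ext x
    simp only [image_univ, mem_range, mem_compl_iff, mem_singleton_iff]
    exact ⟨fun ⟨y, e⟩ => e ▸ (Fin.castSucc_lt_last y).ne, fun h => Fin.exists_castSucc_eq.2 h⟩
  have p0 := pip (ρ := ρ ∘ Fin.succ) (fun i j h => hc _ _ (by simpa using by omega)) (u0 ▸ h0)
  have p1 := pip (ρ := ρ ∘ Fin.castSucc) (fun i j h => hc _ _ (by simpa using h)) (u1 ▸ h1)
  have P : ∀ i j : Fin (n + 2), i < j → ∀ φ, ∀ a ∈ gen ρ (Ioi i), ∀ b ∈ gen ρ (Iio j),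
      b⁻¹ * a ∈ cj S φ → ∃ c ∈ gen ρ (Ioi i) ⊓ gen ρ (Iio j), c⁻¹ * a ∈ cj S φ := by
    intro i j hij φ a ha b hb e
    have ha0 : a ∈ gen ρ {0}ᶜ := gmono (fun x hx => ((Fin.zero_le i).trans_lt hx).ne') ha
    have hb1 : b ∈ gen ρ {Fin.last _}ᶜ := gmono (fun x hx => (hx.trans_le (Fin.le_last j)).ne) hb
    obtain ⟨s, hs1, t, ht, e2⟩ : a⁻¹ * b ∈ ((cj S φ ⊓ gen ρ {0}ᶜ : Subgroup G) : Set G) *
        (cj S φ ⊓ gen ρ {Fin.last _}ᶜ : Subgroup G) := by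
      rw [← hs]; exact ⟨by simpa using inv_mem e, _, inv_mem ha0, _, hb1, rfl⟩
    simp only at e2
    rw [SetLike.mem_coe, Subgroup.mem_inf] at hs1 ht
    have c1 : a * s ∈ gen ρ ({0}ᶜ ∩ {Fin.last _}ᶜ) := by
      rw [← hρ.inter]
      refine Subgroup.mem_inf.2 ⟨mul_mem ha0 hs1.2, ?_⟩
      rw [show a * s = b * t⁻¹ by rw [eq_mul_inv_iff_mul_eq, mul_assoc, e2]; simp]
      exact mul_mem hb1 (inv_mem ht.2)
    obtain ⟨c, c2, c3⟩ : ∃ c ∈ gen ρ (Ioi 0 ∩ Iio j), c⁻¹ * a ∈ cj S φ := by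
      by_cases hj : j = Fin.last _
      · refine ⟨a * s, gmono (fun x hx => mem_inter (Fin.pos_iff_ne_zero.2 hx.1) ?_) c1,
          by simpa using inv_mem hs1.1⟩
        exact hj ▸ Fin.lt_last_iff_ne_last.2 hx.2
      · obtain ⟨j, rfl⟩ := Fin.exists_castSucc_eq.2 hj
        have hij' : i.1 < j.1 := hij
        obtain ⟨c, c2, c3⟩ := p1 (j.1 - 1) 0 j (by simp; omega) φ (a * s) (by
          rw [gcomp]
          refine gmono (fun x hx => ?_) c1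
          obtain ⟨y, rfl⟩ := Fin.exists_castSucc_eq.2 hx.2
          exact ⟨y, Fin.pos_iff_ne_zero.2 (by rintro rfl; exact hx.1 rfl), rfl⟩) b (by
          rw [gcomp]
          refine gmono (fun x hx => ?_) hb
          obtain ⟨y, rfl⟩ := Fin.exists_castSucc_eq.2 (hx.trans_le (Fin.le_last _)).ne
          exact ⟨y, hx, rfl⟩) (by simpa [mul_assoc] using mul_mem e hs1.1)
        rw [gcomp, gcomp, hρ.inter] at c2
        refine ⟨c, gmono ?_ c2, by simpa [mul_assoc] using mul_mem c3 (inv_mem hs1.1)⟩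
        rintro x ⟨⟨y, hy, rfl⟩, z, hz, e⟩
        exact ⟨hy, e ▸ hz⟩
    by_cases hi : i = 0
    · exact ⟨c, by rw [hρ.inter, hi]; exact c2, c3⟩
    · obtain ⟨i, rfl⟩ := Fin.exists_succ_eq.2 hi
      obtain ⟨j, rfl⟩ := Fin.exists_succ_eq.2 ((Fin.zero_le _).trans_lt hij).ne'
      have hij' : i.1 + 1 < j.1 + 1 := hij
      obtain ⟨c', c4, c5⟩ := p0 (j.1 - i.1 - 1) i j (by omega) φ a (by
        rw [gcomp]
        refine gmono (fun x hx => ?_) ha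
        obtain ⟨y, rfl⟩ := Fin.exists_succ_eq.2 ((Fin.zero_le _).trans_lt hx).ne'
        exact ⟨y, Fin.succ_lt_succ_iff.1 hx, rfl⟩) c (by
        rw [gcomp]
        refine gmono (fun x hx => ?_) c2
        obtain ⟨y, rfl⟩ := Fin.exists_succ_eq.2 hx.1.ne'
        exact ⟨y, Fin.succ_lt_succ_iff.1 hx.2, rfl⟩) c3
      rw [gcomp, gcomp] at c4
      refine ⟨c', ⟨gmono ?_ c4.1, gmono ?_ c4.2⟩, c5⟩ <;> rintro _ ⟨y, hy, rfl⟩ <;>
        exact Fin.succ_lt_succ_iff.2 hy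
  have P3 : ∀ i j : Fin (n + 2), j.1 = i.1 + 1 → ∀ φ, ∀ a ∈ gen ρ (Ioi i), ∀ b ∈ gen ρ (Iio j),
      b⁻¹ * a ∈ cj S φ → a ∈ cj S φ := fun i j hj φ a ha b hb e => by
    obtain ⟨c, c1, c2⟩ := P i j (show i.1 < j.1 by omega) φ a ha b hb e
    have : Ioi i ∩ Iio j = ∅ := eq_empty_of_forall_notMem fun x hx => by
      have : i.1 < x.1 := hx.1
      have : x.1 < j.1 := hx.2
      omega
    rw [hρ.inter, this, gen, image_empty, Subgroup.closure_empty, Subgroup.mem_bot] at c1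
    simpa [c1] using c2
  have hm : ∀ {i I}, i ∈ I → ρ i ∈ gen ρ I := fun h => Subgroup.subset_closure ⟨_, h, rfl⟩
  refine ⟨fun φ _ i => eq_empty_of_forall_notMem ?_, fun φ _ i k j hik hkj => ?_, fun i j hj => ?_⟩
  · rintro _ ⟨hx, g, hg, _, rfl, rfl⟩
    obtain ⟨b, hb, a, ha, rfl, hab⟩ := split hc i hg
    by_cases hi : i = Fin.last _
    · subst hi
      have ha1 : a = 1 := by
        simpa [gen, Ioi_eq_empty_iff.2 (isMax_top (α := Fin (n + 2))), ← Fin.top_eq_last] using ha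
      have := P3 (Fin.last n).castSucc (Fin.last _) (by simp) φ _ (hm (Fin.castSucc_lt_last _))
        _ (inv_mem hb) (by simpa [ha1] using hx)
      refine (eq_empty_iff_forall_notMem.1 ((h0 φ).one 1 (one_mem _) (Fin.last n)))
        (ρ (Fin.last _)) ⟨?_, 1, one_mem _, _, rfl, by simp⟩
      simpa [mem_cj] using ⟨this, hm (by simp)⟩
    · obtain ⟨i, rfl⟩ := Fin.exists_castSucc_eq.2 hi
      have hb2 : b * ρ i.castSucc ∈ gen ρ (Iio i.succ) :=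
        mul_mem (gmono (Iio_subset_Iio Fin.castSucc_lt_succ.le) hb) (hm Fin.castSucc_lt_succ)
      have hx' : a * (b * ρ i.castSucc) ∈ cj S φ := by rw [← mul_assoc, ← hab.eq]; exact hx
      have := P3 i.castSucc i.succ (by simp) φ _ (inv_mem ha) _ hb2 (by simpa using inv_mem hx')
      refine (eq_empty_iff_forall_notMem.1 ((h1 φ).one 1 (one_mem _) i))
        (b * ρ i.castSucc) ⟨?_, b, ?_, _, rfl, rfl⟩
      · have h2 := mul_mem this hx'
        simpa [mem_cj] using ⟨by simpa [mem_cj] using h2,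
          gmono (fun x hx => (hx.trans_le (Fin.le_last _)).ne) hb2⟩
      · rw [gcomp]
        refine gmono (fun x hx => ?_) hb
        obtain ⟨y, rfl⟩ := Fin.exists_castSucc_eq.2 (hx.trans_le (Fin.le_last _)).ne
        exact ⟨y, (show y < i from hx).ne, rfl⟩
  · rintro _ ⟨ha, b, hb, s, hs, rfl⟩
    obtain ⟨c, c1, c2⟩ := P i j (hik.trans hkj) φ _ ha b hb (by simpa using hs)
    exact ⟨c, ⟨1, one_mem _, c, c1, one_mul _⟩, _, c2, by simp⟩
  · rintro _ ⟨ha, b, hb, s, hs, rfl⟩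
    simpa [mem_cj] using P3 i j hj 1 _ ha b hb (by simpa [mem_cj] using hs)

end Pool.Agent.Results.MP_bc764a_al.Semisparse
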